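import Pool.Agent.H27.G.R_seed8.H446R2.BrunB

set_option autoImplicit false

namespace Pool.Agent.H446R2

open Finset

lemma dn_nonneg (p : ℕ) : 0 ≤ dn p := by unfold dn; positivity

/-- primes in a dyadic interval -/
lemma dyadic (D : Finset ℕ) (j : ℕ) (hj : 1 ≤ j)
    (hD : ∀ p ∈ D, p.Prime ∧ 2 ^ j < p ∧ p ≤ 2 ^ (j + 1)) : ∑ p ∈ D, dn p ≤ 4 / j := by
  have h1 : (2 ^ j) ^ D.card ≤ ∏ p ∈ D, p := by
    rw [← prod_const]
    exact prod_le_prod' fun p hp => (hD p hp).2.1.le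
  have h2 : ∏ p ∈ D, p ≤ primorial (2 ^ (j + 1)) := by
    unfold primorial
    apply prod_le_prod_of_subset_of_one_le'
    · intro p hp
      rw [mem_filter, mem_range]
      exact ⟨Nat.lt_succ_of_le (hD p hp).2.2, (hD p hp).1⟩
    · intro p hp _
      exact (mem_filter.1 hp).2.one_le
  have h3 : primorial (2 ^ (j + 1)) ≤ 4 ^ (2 ^ (j + 1)) :=
    (primorial_lt_four_pow _ (by positivity)).le
  have h4 : 2 ^ (j * D.card) ≤ 2 ^ (2 * 2 ^ (j + 1)) := by
    rw [pow_mul, pow_mul]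
    exact h1.trans (h2.trans h3)
  have h5 : j * D.card ≤ 2 * 2 ^ (j + 1) := (Nat.pow_le_pow_iff_right (by norm_num)).1 h4
  have h6 : ∑ p ∈ D, dn p ≤ ∑ p ∈ D, 1 / (2 ^ j : ℝ) := by
    apply sum_le_sum
    intro p hp
    unfold dn
    apply one_div_le_one_div_of_le (by positivity)
    exact_mod_cast (hD p hp).2.1.le
  rw [sum_const, nsmul_eq_mul] at h6
  refine h6.trans ?_
  have hj' : (0 : ℝ) < j := by exact_mod_cast hj
  rw [mul_one_div, div_le_div_iff₀ (by positivity) hj']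
  have h7 : (j : ℝ) * D.card ≤ 2 * 2 ^ (j + 1) := by exact_mod_cast h5
  rw [pow_succ] at h7
  linarith

lemma block_sum (T : Finset ℕ) (i : ℕ)
    (hT : ∀ p ∈ T, p.Prime ∧ 2 ^ 2 ^ i < p ∧ p ≤ 2 ^ 2 ^ (i + 1)) : ∑ p ∈ T, dn p ≤ 4 := by
  have hmap : ∀ p ∈ T, Nat.log 2 (p - 1) ∈ Ico (2 ^ i) (2 ^ (i + 1)) := by
    intro p hp
    obtain ⟨h1, h2, h3⟩ := hT p hp
    rw [mem_Ico]
    constructor
    · apply Nat.le_log_of_pow_le (by norm_num)
      omega
    · apply Nat.log_lt_of_lt_pow (by have := h1.two_le; omega)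
      have := h1.two_le
      omega
  rw [← Finset.sum_fiberwise_of_maps_to hmap]
  have h1 : ∀ j ∈ Ico (2 ^ i) (2 ^ (i + 1)),
      ∑ p ∈ T with Nat.log 2 (p - 1) = j, dn p ≤ 4 / (2 ^ i : ℝ) := by
    intro j hj
    rw [mem_Ico] at hj
    have hi1 : 1 ≤ 2 ^ i := Nat.one_le_two_pow
    have h2 := dyadic (T.filter (fun p => Nat.log 2 (p - 1) = j)) j (by omega) (by
      intro p hp
      rw [mem_filter] at hp
      obtain ⟨h1, h2, h3⟩ := hT p hp.1
      refine ⟨h1, ?_, ?_⟩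
      · have h4 := Nat.pow_log_le_self 2 (x := p - 1) (by have := h1.two_le; omega)
        rw [hp.2] at h4
        have := h1.two_le
        omega
      · have h4 := Nat.lt_pow_succ_log_self (b := 2) (by norm_num) (p - 1)
        rw [hp.2] at h4
        have h5 : j.succ = j + 1 := rfl
        rw [h5] at h4
        omega)
    refine h2.trans ?_
    have h3 : (2 ^ i : ℝ) ≤ j := by exact_mod_cast hj.1
    exact div_le_div_of_nonneg_left (by norm_num) (by positivity) h3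
  refine (sum_le_sum h1).trans ?_
  rw [sum_const, Nat.card_Ico, nsmul_eq_mul]
  have h2 : 2 ^ (i + 1) - 2 ^ i = 2 ^ i := by rw [pow_succ]; omega
  rw [h2]
  push_cast
  have : (2 ^ i : ℝ) ≠ 0 := by positivity
  field_simp
  exact le_refl _

/-- the blocks -/
noncomputable def TT (S : Finset ℕ) (i : ℕ) : Finset ℕ :=
  S.filter (fun p => p ≤ 2 ^ 2 ^ (i + 1) ∧ (i = 0 ∨ 2 ^ 2 ^ i < p))

lemma TT_sum (S : Finset ℕ) (hS : ∀ p ∈ S, p.Prime) (i : ℕ) : ∑ p ∈ TT S i, dn p ≤ 4 := by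
  rcases Nat.eq_zero_or_pos i with rfl | hi
  · have h1 : TT S 0 ⊆ {2, 3} := by
      intro p hp
      rw [TT, mem_filter] at hp
      have h2 := (hS p hp.1).two_le
      have h3 : p ≤ 4 := by simpa using hp.2.1
      have h4 := hS p hp.1
      interval_cases p
      · simp
      · simp
      · exact absurd h4 (by norm_num)
    refine (sum_le_sum_of_subset_of_nonneg h1 (fun p _ _ => dn_nonneg p)).trans ?_
    rw [sum_pair (by norm_num)]
    unfold dn
    norm_num
  · apply block_sum _ i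
    intro p hp
    rw [TT, mem_filter] at hp
    refine ⟨hS p hp.1, ?_, hp.2.1⟩
    rcases hp.2.2 with h | h
    · omega
    · exact h

lemma TT_disj (S : Finset ℕ) (i j : ℕ) (hij : i < j) : Disjoint (TT S i) (TT S j) := by
  rw [Finset.disjoint_left]
  intro p h1 h2
  rw [TT, mem_filter] at h1 h2
  rcases h2.2.2 with h | h
  · omega
  · have h3 : 2 ^ 2 ^ (i + 1) ≤ 2 ^ 2 ^ j :=
      Nat.pow_le_pow_right (by norm_num) (Nat.pow_le_pow_right (by norm_num) hij)
    have := h1.2.1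
    omega

lemma TT_cover (S : Finset ℕ) (p : ℕ) (hp : p ∈ S) (I : ℕ) (hI : 1 ≤ I) (hpI : p ≤ 2 ^ 2 ^ I) :
    ∃ i < I, p ∈ TT S i := by
  induction I with
  | zero => omega
  | succ I ih =>
    rcases Nat.eq_zero_or_pos I with rfl | hI0
    · exact ⟨0, by norm_num, by rw [TT, mem_filter]; exact ⟨hp, hpI, Or.inl rfl⟩⟩
    · by_cases h : p ≤ 2 ^ 2 ^ I
      · obtain ⟨i, hi, hpi⟩ := ih hI0 h
        exact ⟨i, by omega, hpi⟩
      · exact ⟨I, by omega, by rw [TT, mem_filter]; exact ⟨hp, hpI, Or.inr (by omega)⟩⟩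

lemma Nc_le (T : Finset ℕ) (r Y : ℕ) (hY : 4 ≤ Y) (hT : ∀ p ∈ T, 1 ≤ p ∧ p ≤ Y) :
    Nc T r ≤ (Y : ℝ) ^ (r + 1) := by
  have hY' : (4 : ℝ) ≤ Y := by exact_mod_cast hY
  have hYpos : (0 : ℝ) < Y := by linarith
  have h1 : Nc T r ≤ ∑ A ∈ T.powerset, (Y : ℝ) ^ r * ∏ p ∈ A, (Y : ℝ)⁻¹ := by
    unfold Nc
    rw [Finset.card_filter, Finset.card_filter]
    push_cast
    rw [← sum_add_distrib]
    apply sum_le_sum
    intro A _
    rw [prod_const]
    have hpos : 0 ≤ (Y : ℝ) ^ r * ((Y : ℝ)⁻¹) ^ A.card := by positivity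
    have hle : A.card ≤ r → 1 ≤ (Y : ℝ) ^ r * ((Y : ℝ)⁻¹) ^ A.card := by
      intro h
      rw [inv_pow, ← div_eq_mul_inv, le_div_iff₀ (by positivity), one_mul]
      exact pow_le_pow_right₀ (by linarith) h
    rcases lt_trichotomy A.card r with h | h | h
    · rw [if_pos h, if_neg (by omega)]; linarith [hle h.le]
    · rw [if_neg (by omega), if_pos h]; linarith [hle h.le]
    · rw [if_neg (by omega), if_neg (by omega)]; linarith
  refine h1.trans ?_
  rw [← mul_sum]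
  have h2 : ∑ A ∈ T.powerset, ∏ p ∈ A, (Y : ℝ)⁻¹ ≤ 3 := by
    calc ∑ A ∈ T.powerset, ∏ p ∈ A, (Y : ℝ)⁻¹ = ∏ p ∈ T, (1 + (Y : ℝ)⁻¹) := by
          rw [Finset.prod_one_add]
      _ ≤ ∏ p ∈ T, Real.exp ((Y : ℝ)⁻¹) := by
          apply Finset.prod_le_prod
          · intro p _; positivity
          · intro p _
            have := Real.add_one_le_exp ((Y : ℝ)⁻¹)
            linarith
      _ = Real.exp (T.card * (Y : ℝ)⁻¹) := by
          rw [Finset.prod_const, ← Real.exp_nat_mul]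
      _ ≤ Real.exp 1 := by
          apply Real.exp_le_exp.2
          have hc : T.card ≤ Y := by
            calc T.card ≤ (Finset.Icc 1 Y).card := by
                  apply Finset.card_le_card
                  intro p hp
                  rw [Finset.mem_Icc]
                  exact hT p hp
              _ = Y := by simp
          have hc' : (T.card : ℝ) ≤ Y := by exact_mod_cast hc
          rw [← div_eq_mul_inv, div_le_one (by linarith)]
          exact hc'
      _ ≤ 3 := by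
          have := Real.exp_one_lt_d9
          linarith
  calc (Y : ℝ) ^ r * ∑ A ∈ T.powerset, ∏ p ∈ A, (Y : ℝ)⁻¹ ≤ (Y : ℝ) ^ r * 3 :=
        mul_le_mul_of_nonneg_left h2 (by positivity)
    _ ≤ (Y : ℝ) ^ r * Y := mul_le_mul_of_nonneg_left (by linarith) (by positivity)
    _ = (Y : ℝ) ^ (r + 1) := by rw [pow_succ]

/-- truncation levels -/
def rr (I i : ℕ) : ℕ := 27 + 2 * (I - 1 - i)

lemma exponent_sum (I : ℕ) : ∑ i ∈ range I, 2 ^ (i + 1) * (rr I i + 1) + 4 * I + 60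
    = 60 * 2 ^ I := by
  induction I with
  | zero => simp
  | succ I ih =>
    rw [sum_range_succ']
    have h1 : ∑ i ∈ range I, 2 ^ (i + 1 + 1) * (rr (I + 1) (i + 1) + 1)
        = 2 * ∑ i ∈ range I, 2 ^ (i + 1) * (rr I i + 1) := by
      rw [mul_sum]
      apply sum_congr rfl
      intro i _
      have : rr (I + 1) (i + 1) = rr I i := by unfold rr; omega
      rw [this, pow_succ 2 (i + 1)]
      ring
    rw [h1, pow_succ]
    have h2 : rr (I + 1) 0 = 27 + 2 * I := by unfold rr; omega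
    rw [h2]
    omega

lemma geom_sum_bound (I : ℕ) : ∑ i ∈ range I, (1 / 2 : ℝ) ^ (rr I i) ≤ 1 / 2 ^ 25 := by
  have h : ∀ I : ℕ, ∑ i ∈ range I, (1 / 2 : ℝ) ^ (rr I i) ≤ 1 / 2 ^ 25 - 1 / 2 ^ (25 + 2 * I) := by
    intro I
    induction I with
    | zero => simp
    | succ I ih =>
      rw [sum_range_succ']
      have h1 : ∀ i ∈ range I, (1 / 2 : ℝ) ^ (rr (I + 1) (i + 1)) = (1 / 2 : ℝ) ^ (rr I i) := by
        intro i _
        have : rr (I + 1) (i + 1) = rr I i := by unfold rr; omega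
        rw [this]
      rw [sum_congr rfl h1]
      have h2 : rr (I + 1) 0 = 27 + 2 * I := by unfold rr; omega
      rw [h2]
      have h3 : (1 / 2 : ℝ) ^ (27 + 2 * I) = 1 / 2 ^ (25 + 2 * I) * (1 / 4) := by
        rw [one_div_pow, show 27 + 2 * I = (25 + 2 * I) + 2 by ring, pow_add]
        field_simp
        norm_num
      have h4 : (1 : ℝ) / 2 ^ (25 + 2 * (I + 1)) = 1 / 2 ^ (25 + 2 * I) * (1 / 4) := by
        rw [show 25 + 2 * (I + 1) = (25 + 2 * I) + 2 by ring, pow_add]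
        field_simp
        norm_num
      have h5 : (0 : ℝ) < 1 / 2 ^ (25 + 2 * I) := by positivity
      rw [h3, h4]
      linarith
  have h1 := h I
  have h2 : (0 : ℝ) < 1 / 2 ^ (25 + 2 * I) := by positivity
  linarith

end Pool.Agent.H446R2
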